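import Mathlib
import Pool.Agent.H21.ComplDef

namespace Pool.Agent.Results.MP_97e4cf_co.Counter

open Pool.Agent.H21.Compl Matrix Finset

theorem count {N k : ℕ} {A : Matrix (Fin N) (Fin N) ℝ} (hA : A.IsHermitian) (s : ℝ)
    (f : (Fin k → ℝ) →ₗ[ℝ] (Fin N → ℝ)) (h : ∀ y, y ≠ 0 → 0 < s * (f y ⬝ᵥ A *ᵥ f y)) :
    k ≤ (univ.filter fun i => 0 < s * hA.eigenvalues i).card := by
  let u := hA.eigenvectorBasis
  let g : (Fin k → ℝ) →ₗ[ℝ] ({i // 0 < s * hA.eigenvalues i} → ℝ) :=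
    { toFun := fun y i => (u i.1).ofLp ⬝ᵥ f y
      map_add' := fun y z => by ext i; simp
      map_smul' := fun c y => by ext i; simp }
  have hq : ∀ v : Fin N → ℝ, v ⬝ᵥ A *ᵥ v = ∑ i, hA.eigenvalues i * ((u i).ofLp ⬝ᵥ v) ^ 2 := by
    intro v
    have := u.sum_inner_mul_inner (WithLp.toLp 2 v) (WithLp.toLp 2 (A *ᵥ v))
    simp only [EuclideanSpace.inner_eq_star_dotProduct, star_trivial] at this
    rw [dotProduct_comm, ← this]
    refine sum_congr rfl fun i _ => ?_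
    have e : (A *ᵥ v) ⬝ᵥ (u i).ofLp = hA.eigenvalues i * ((u i).ofLp ⬝ᵥ v) := by
      rw [dotProduct_comm, dotProduct_mulVec, ← mulVec_transpose,
        show Aᵀ = A from hA, hA.mulVec_eigenvectorBasis, smul_dotProduct, smul_eq_mul]
    rw [e]; ring
  have hg : Function.Injective g := by
    rw [injective_iff_map_eq_zero]
    intro y hy
    by_contra h0
    have h1 := h y h0
    rw [hq, mul_sum] at h1
    refine absurd h1 (not_lt.mpr (sum_nonpos fun i _ => ?_))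
    by_cases hi : 0 < s * hA.eigenvalues i
    · have : (u i).ofLp ⬝ᵥ f y = 0 := congrFun hy ⟨i, hi⟩
      simp [this]
    · rw [← mul_assoc]; exact mul_nonpos_of_nonpos_of_nonneg (not_lt.mp hi) (sq_nonneg _)
  have := LinearMap.finrank_le_finrank_of_injective hg
  simpa [Fintype.card_subtype] using this

theorem rank_full {A : Matrix (Fin 6) (Fin 6) ℝ} (h : ∀ v, A *ᵥ v = 0 → v = 0) : A.rank = 6 := by
  have : IsUnit A := by
    rw [← Matrix.mulVec_injective_iff_isUnit]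
    exact (injective_iff_map_eq_zero A.mulVecLin).mpr h
  simpa using rank_of_isUnit A this

def E : Finset (Sym2 (Fin 6)) :=
  univ.filter fun e => e ∉ ({s(0, 2), s(0, 3), s(0, 4), s(0, 5)} : Finset (Sym2 (Fin 6)))

theorem exists_compl (M : E → ℝ) : ∃ A, IsCompl E M A := by
  refine ⟨Matrix.of fun i j => if h : s(i, j) ∈ E then M ⟨_, h⟩ else 0, ?_, fun i j h => by simp [h]⟩
  ext i j
  simp only [transpose_apply, of_apply, Sym2.eq_swap (a := j)]

theorem minCompl (M : E → ℝ) (h : ∀ A, IsCompl E M A → ∀ v, A *ᵥ v = 0 → v = 0) :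
    MinCompl E M 6 := by
  obtain ⟨A, hA⟩ := exists_compl M
  refine ⟨⟨A, hA, rank_full (h A hA)⟩, ?_⟩
  rintro _ ⟨B, hB, rfl⟩
  exact (rank_full (h B hB)).ge

def B0 : Matrix (Fin 6) (Fin 6) ℝ := diagonal ![-1, 1, 1, 1, 1, 1]
def B1 : Matrix (Fin 6) (Fin 6) ℝ :=
  !![0, 1, 0, 0, 0, 0; 1, 0, 0, 0, 0, 0; 0, 0, 1, 0, 0, 0; 0, 0, 0, 1, 0, 0; 0, 0, 0, 0, -1, 0;
    0, 0, 0, 0, 0, -1]
theorem B1_symm : ∀ i j, B1 i j = B1 j i := by
  intro i j; fin_cases i <;> fin_cases j <;> rfl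
theorem B0_symm : ∀ i j, B0 i j = B0 j i := fun i j => by
  simp only [B0, diagonal_apply]; split_ifs with h1 h2 h2 <;> simp_all
def M0 : E → ℝ := fun e => Sym2.lift ⟨B0, B0_symm⟩ e.1
def M1 : E → ℝ := fun e => Sym2.lift ⟨B1, B1_symm⟩ e.1

theorem memE : ∀ i j : Fin 6, i ≠ 0 → j ≠ 0 → s(i, j) ∈ E := by decide

theorem typical : FullRankTypical E := by
  refine ⟨Metric.ball M0 (1 / 10), Metric.isOpen_ball, ⟨M0, Metric.mem_ball_self (by norm_num)⟩,
    fun M hM => minCompl M fun A hA v hv => ?_⟩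
  have hb : ∀ i j, s(i, j) ∈ E → |A i j - B0 i j| ≤ 1 / 10 := by
    intro i j h
    have := (dist_le_pi_dist M M0 ⟨_, h⟩).trans (Metric.mem_ball.mp hM).le
    rwa [Real.dist_eq, ← hA.2 i j h] at this
  have key : ∀ i j : Fin 5, B0 i.succ j.succ * v i.succ * v j.succ -
      (v i.succ ^ 2 + v j.succ ^ 2) / 20 ≤ A i.succ j.succ * v i.succ * v j.succ := by
    intro i j
    have := abs_le.mp (hb _ _ (memE _ _ (Fin.succ_ne_zero i) (Fin.succ_ne_zero j)))
    nlinarith [mul_nonneg (sub_nonneg.mpr this.1) (sq_nonneg (v i.succ + v j.succ)),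
      mul_nonneg (sub_nonneg.mpr this.2) (sq_nonneg (v i.succ - v j.succ))]
  have h00 := (abs_le.mp (hb 0 0 (by decide))).2
  have hsum := sum_le_sum fun i (_ : i ∈ univ) => sum_le_sum fun j (_ : j ∈ univ) => key i j
  have r := fun i => congrFun hv i
  have hs := fun i j => hA.1.apply i j
  have e : ∑ i : Fin 5, ∑ j : Fin 5, A i.succ j.succ * v i.succ * v j.succ = A 0 0 * v 0 ^ 2 := by
    have r0 := r 0; have r1 := r 1; have r2 := r 2; have r3 := r 3; have r4 := r 4; have r5 := r 5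
    simp only [mulVec, dotProduct, Fin.sum_univ_succ, Fin.sum_univ_zero, Pi.zero_apply] at *
    simp only [Fin.succ_zero_eq_one, Fin.succ_one_eq_two, Fin.reduceSucc] at *
    rw [hs 0 1] at r1; rw [hs 0 2] at r2; rw [hs 0 3] at r3; rw [hs 0 4] at r4; rw [hs 0 5] at r5
    linear_combination v 1 * r1 + v 2 * r2 + v 3 * r3 + v 4 * r4 + v 5 * r5 - v 0 * r0
  rw [e] at hsum
  simp [Fin.sum_univ_succ, B0] at hsum h00
  have z : v 0 ^ 2 + v 1 ^ 2 + v 2 ^ 2 + v 3 ^ 2 + v 4 ^ 2 + v 5 ^ 2 ≤ 0 := by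
    nlinarith [sq_nonneg (v 0), sq_nonneg (v 1), sq_nonneg (v 2), sq_nonneg (v 3), sq_nonneg (v 4),
      sq_nonneg (v 5)]
  ext i
  fin_cases i <;> simp <;> nlinarith [sq_nonneg (v 0), sq_nonneg (v 1), sq_nonneg (v 2),
    sq_nonneg (v 3), sq_nonneg (v 4), sq_nonneg (v 5)]

theorem form {A : Matrix (Fin 6) (Fin 6) ℝ} (hA : IsCompl E M1 A) : A =
    !![0, 1, A 0 2, A 0 3, A 0 4, A 0 5; 1, 0, 0, 0, 0, 0; A 0 2, 0, 1, 0, 0, 0;
      A 0 3, 0, 0, 1, 0, 0; A 0 4, 0, 0, 0, -1, 0; A 0 5, 0, 0, 0, 0, -1] := by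
  ext i j
  fin_cases i <;> fin_cases j <;>
    first | rfl | exact hA.1.apply _ _ | exact hA.2 _ _ (by decide)

theorem min1 : MinCompl E M1 6 := minCompl M1 fun A hA v hv => by
  rw [form hA] at hv
  have r := fun i => congrFun hv i
  have r0 := r 0; have r1 := r 1; have r2 := r 2; have r3 := r 3; have r4 := r 4; have r5 := r 5
  simp [mulVec, dotProduct, Fin.sum_univ_succ] at r0 r1 r2 r3 r4 r5
  simp [r1] at r2 r3 r4 r5
  simp [r2, r3, r4, r5] at r0
  ext i; fin_cases i <;> simp [*]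

theorem in1 : HasInertia E M1 3 3 := by
  intro A hA hH
  have h1 := count hH 1 (Matrix.mulVecLin !![1, 0, 0; 1, -A 0 2, -A 0 3; 0, 1, 0; 0, 0, 1; 0, 0, 0;
    0, 0, 0]) (by
    intro y hy
    have : 0 < 2 * y 0 ^ 2 + y 1 ^ 2 + y 2 ^ 2 := by
      by_contra hc
      apply hy; ext i
      fin_cases i <;> simp <;> nlinarith [sq_nonneg (y 0), sq_nonneg (y 1), sq_nonneg (y 2)]
    convert this using 1
    generalize_proofs
    conv_lhs => rw [form hA]
    simp [mulVec, dotProduct, Fin.sum_univ_succ]; ring)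
  have h2 := count hH (-1) (Matrix.mulVecLin !![1, 0, 0; -1, -A 0 4, -A 0 5; 0, 0, 0; 0, 0, 0;
    0, 1, 0; 0, 0, 1]) (by
    intro y hy
    have : 0 < 2 * y 0 ^ 2 + y 1 ^ 2 + y 2 ^ 2 := by
      by_contra hc
      apply hy; ext i
      fin_cases i <;> simp <;> nlinarith [sq_nonneg (y 0), sq_nonneg (y 1), sq_nonneg (y 2)]
    convert this using 1
    generalize_proofs
    conv_lhs => rw [form hA]
    simp [mulVec, dotProduct, Fin.sum_univ_succ]; ring)
  simp only [one_mul, neg_mul, Left.neg_pos_iff] at h1 h2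
  have h3 := card_le_univ ((univ.filter fun i => 0 < hH.eigenvalues i) ∪
    (univ.filter fun i => hH.eigenvalues i < 0))
  rw [card_union_of_disjoint (disjoint_filter.mpr fun i _ h => not_lt.mpr h.le),
    Fintype.card_fin] at h3
  omega

theorem nocol : ¬ Bicol E 3 3 := by unfold Bicol; decide +kernel

theorem result : ¬ ∀ (N : ℕ) (E : Finset (Sym2 (Fin N))) (M : E → ℝ) (m n : ℕ), 1 ≤ N →
    FullRankTypical E → MinCompl E M N → m + n = N → HasInertia E M m n → Bicol E m n :=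
  fun h => nocol (h 6 E M1 3 3 (by norm_num) typical min1 rfl in1)

end Pool.Agent.Results.MP_97e4cf_co.Counter
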